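import Pool.Agent.H2.PD.Chk

/-! Kernel verification of the tables. No Mathlib. -/

namespace Pool.Agent.H2.PD

noncomputable def qx (i : Nat) : Int := Int.sub (Int.ofNat (Nat.mod (gE i) 4194304)) 1048576
noncomputable def qy (i : Nat) : Int := Int.sub (Int.ofNat (Nat.div (gE i) 4194304)) 1048576
noncomputable def tu (h : Nat) : Int := Int.sub (Int.ofNat (Nat.land (Nat.shiftRight TTab (Nat.mul 56 h)) 4095)) 2048
noncomputable def tv (h : Nat) : Int :=
  Int.sub (Int.ofNat (Nat.land (Nat.shiftRight TTab (Nat.add (Nat.mul 56 h) 12)) 4095)) 2048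
noncomputable def tC (h : Nat) : Nat := Nat.land (Nat.shiftRight TTab (Nat.add (Nat.mul 56 h) 24)) 4294967295

/-- `z ≥ 0`. -/
noncomputable def nn (z : Int) : Bool := Int.rec (motive := fun _ => Bool) (fun _ => true) (fun _ => false) z

noncomputable def c5 (x y : Nat) : Bool :=
  frc (Nat.pow x 5) fun a => frc (Nat.pow y 5) fun b =>
  cnd (Nat.ble (Nat.add a b) 1267650600228229401496703205376)
    (Nat.ble (Nat.mul 4 (Nat.mul a b)) (Nat.pow (Nat.sub 1267650600228229401496703205376 (Nat.add a b)) 2)) false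

noncomputable def chk1 (i : Nat) : Bool := c5 (Int.natAbs (qx i)) (Int.natAbs (qy i))

noncomputable def chkH (h : Nat) : Bool :=
  cnd (Nat.ble 1 (tC h)) (Nat.ble (Nat.pow (Nat.add (Nat.pow (Int.natAbs (tu h)) 5) (Nat.pow (Int.natAbs (tv h)) 5)) 3)
    (Nat.pow (tC h) 5)) false

/-- `13161 S C D ≤ 10000 k d`. -/
noncomputable def chkD (k C : Nat) (d : Int) : Bool :=
  Int.rec (motive := fun _ => Bool) (fun d => Nat.ble (Nat.mul 904417033322496 C) (Nat.mul 10000 (Nat.mul k d)))
    (fun _ => false) d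

noncomputable def cube (u : Int) : Int := Int.mul (Int.mul u u) u

noncomputable def chkS2 (k C : Nat) (u3 v3 x1 y1 x2 y2 : Int) : Bool :=
  cnd (nn (Int.sub (Int.sub (Int.mul x1 y2) (Int.mul y1 x2)) 1))
    (cnd (chkD k C (Int.add (Int.mul u3 x1) (Int.mul v3 y1)))
      (chkD k C (Int.add (Int.mul u3 x2) (Int.mul v3 y2))) false) false

noncomputable def chkS (a w : Nat) : Bool :=
  frc (gK w) fun k => cnd (Nat.beq k 0) true
    (frc (Nat.mod (Nat.add a w) 256) fun j => frc (Nat.mod (Nat.add (Nat.mul 2 a) w) 512) fun h =>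
      chkS2 k (tC h) (cube (tu h)) (cube (tv h)) (qx a) (qy a) (qx j) (qy j))

/-- All of `p 0, ..., p (n-1)`. -/
noncomputable def allN (p : Nat → Bool) (n : Nat) : Bool :=
  Nat.rec (motive := fun _ => Bool) true (fun m ih => cnd (p m) ih false) n

theorem allN_spec (p : Nat → Bool) (n : Nat) (h : allN p n = true) : ∀ i, i < n → p i = true := by
  induction n with
  | zero => intro i hi; exact absurd hi (Nat.not_lt_zero _)
  | succ n ih =>
    intro i hi
    have h1 : cnd (p n) (allN p n) false = true := h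
    cases hp : p n with
    | false => rw [hp, cnd_false] at h1; cases h1
    | true =>
      rw [hp, cnd_true] at h1
      rcases Nat.lt_succ_iff_lt_or_eq.1 hi with h2 | h2
      · exact ih h1 i h2
      · rw [h2]; exact hp

theorem all1 : allN chk1 256 = true := by decide +kernel
theorem allH : allN chkH 512 = true := by decide +kernel
theorem allS : allN (fun a => allN (chkS a) 128) 256 = true := by decide +kernel

noncomputable def chkA (i : Nat) : Bool :=
  cnd (Int.beq' (qx (Nat.add i 128)) (Int.neg (qx i))) (Int.beq' (qy (Nat.add i 128)) (Int.neg (qy i))) false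

theorem allA : allN chkA 128 = true := by decide +kernel

theorem k0 : gK 0 = 0 := by decide +kernel
theorem k1 : allN (fun w => Nat.beq (gK (Nat.add w 128)) 0) 128 = true := by decide +kernel
theorem k2 : allN (fun w => Nat.ble 1 (gK (Nat.add w 1))) 63 = true := by decide +kernel

/-- Zone test for the direction `i` and the zone `(X, Y) = (px Z, py Z)`; `sx`, `sy` are the signs. -/
noncomputable def chkZ (X Y sx sy x y : Int) : Bool :=
  cnd (nn (Int.sub (Int.sub (Int.mul (Int.mul sx x) X) (Int.mul (Int.mul sy y) Y)) 1))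
    (nn (Int.sub (Int.sub (Int.mul (Int.mul sy y) X) (Int.mul (Int.mul sx x) Y)) 1)) false

noncomputable def chkZZ (Z : Nat) : Bool :=
  allN (fun r => cnd (Nat.ble (Nat.succ Z) r) (cnd (Nat.ble (Nat.add r Z) 63)
    (cnd (chkZ (qx Z) (qy Z) 1 1 (qx r) (qy r))
    (cnd (chkZ (qx Z) (qy Z) (-1) 1 (qx (Nat.add 64 r)) (qy (Nat.add 64 r)))
    (cnd (chkZ (qx Z) (qy Z) (-1) (-1) (qx (Nat.add 128 r)) (qy (Nat.add 128 r)))
    (chkZ (qx Z) (qy Z) 1 (-1) (qx (Nat.add 192 r)) (qy (Nat.add 192 r))) false) false) false) true) true) 64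

theorem z8 : chkZZ 8 = true := by decide +kernel
theorem z16 : chkZZ 16 = true := by decide +kernel
theorem z24 : chkZZ 24 = true := by decide +kernel

noncomputable def chkP (Z : Nat) : Bool := cnd (nn (Int.sub (qy Z) 1)) (nn (Int.sub (Int.sub (qx Z) (qy Z)) 1)) false

theorem p8 : chkP 8 = true := by decide +kernel
theorem p16 : chkP 16 = true := by decide +kernel
theorem p24 : chkP 24 = true := by decide +kernel

/-- Special directions: `0`, `32`. -/
theorem d0 : Int.beq' (qx 0) 1048576 = true ∧ Int.beq' (qy 0) 0 = true := by decide +kernel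
theorem d32 : Int.beq' (qx 32) (qy 32) = true ∧ nn (Int.sub (qx 32) 1) = true := by decide +kernel

end Pool.Agent.H2.PD
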