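import Pool.Agent.H2.PD.StmChk
import Pool.Agent.H2.PD.TabChk

/-! `TabOK` from the kernel checks. -/

namespace Pool.Agent.H2.PD

theorem qx_eq (i : ℕ) : qx i = px i := rfl
theorem qy_eq (i : ℕ) : qy i = py i := rfl

theorem nn_spec (z : ℤ) (h : nn z = true) : 0 ≤ z := by
  cases z with
  | ofNat n => exact Int.natCast_nonneg n
  | negSucc n => exact absurd h (by change ¬ (false = true); decide)

theorem cnd_and (a b : Bool) (h : cnd a b false = true) : a = true ∧ b = true := by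
  cases a with
  | true => exact ⟨rfl, h⟩
  | false => exact absurd h (by change ¬ (false = true); decide)

theorem c5_spec (x y : ℕ) (h : c5 x y = true) : x ^ 5 + y ^ 5 ≤ 1048576 ^ 5 ∧
    4 * (x ^ 5 * y ^ 5) ≤ (1048576 ^ 5 - (x ^ 5 + y ^ 5)) ^ 2 := by
  have h1 : cnd (Nat.ble (x ^ 5 + y ^ 5) 1267650600228229401496703205376)
    (Nat.ble (4 * (x ^ 5 * y ^ 5)) ((1267650600228229401496703205376 - (x ^ 5 + y ^ 5)) ^ 2)) false = true := h
  obtain ⟨h2, h3⟩ := cnd_and _ _ h1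
  have e : (1048576 : ℕ) ^ 5 = 1267650600228229401496703205376 := by norm_num
  rw [e]
  exact ⟨Nat.le_of_ble_eq_true h2, Nat.le_of_ble_eq_true h3⟩

theorem tab_nle : ∀ i < 256, |px i| ^ 5 + |py i| ^ 5 ≤ ((1048576 : ℕ) : ℤ) ^ 5 ∧
    4 * (|px i| ^ 5 * |py i| ^ 5) ≤ (((1048576 : ℕ) : ℤ) ^ 5 - |px i| ^ 5 - |py i| ^ 5) ^ 2 := by
  intro i hi
  have h := c5_spec _ _ (allN_spec _ _ all1 i hi)
  rw [qx_eq, qy_eq] at h
  obtain ⟨h1, h2⟩ := h
  rw [Int.abs_eq_natAbs, Int.abs_eq_natAbs]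
  constructor
  · exact_mod_cast h1
  · have h3 : ((4 * ((px i).natAbs ^ 5 * (py i).natAbs ^ 5) : ℕ) : ℤ) ≤
      (((1048576 ^ 5 - ((px i).natAbs ^ 5 + (py i).natAbs ^ 5)) ^ 2 : ℕ) : ℤ) := by exact_mod_cast h2
    rw [Nat.cast_pow, Nat.cast_sub h1] at h3
    push_cast at h3 ⊢
    rw [← sub_sub] at h3
    exact h3

theorem chkH_spec (h : ℕ) (hh : h < 512) : 0 < tC h ∧ (|tu h| ^ 5 + |tv h| ^ 5) ^ 3 ≤ (tC h : ℤ) ^ 5 := by
  have h0 := allN_spec _ _ allH h hh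
  have h1 : cnd (Nat.ble 1 (tC h)) (Nat.ble (((tu h).natAbs ^ 5 + (tv h).natAbs ^ 5) ^ 3) (tC h ^ 5)) false = true := h0
  obtain ⟨h2, h3⟩ := cnd_and _ _ h1
  refine ⟨Nat.le_of_ble_eq_true h2, ?_⟩
  have h4 := Nat.le_of_ble_eq_true h3
  rw [Int.abs_eq_natAbs, Int.abs_eq_natAbs]
  exact_mod_cast h4

theorem chkD_spec (k C : ℕ) (d : ℤ) (h : chkD k C d = true) :
    13161 * (((1048576 : ℕ) : ℤ) * C * (65536 : ℕ)) ≤ 10000 * ((k : ℤ) * d) := by
  cases d with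
  | ofNat n =>
    have h1 : Nat.ble (904417033322496 * C) (10000 * (k * n)) = true := h
    have h2 : ((904417033322496 * C : ℕ) : ℤ) ≤ ((10000 * (k * n) : ℕ) : ℤ) := by
      exact_mod_cast Nat.le_of_ble_eq_true h1
    push_cast at h2 ⊢
    rw [Int.ofNat_eq_natCast]
    linarith
  | negSucc n => exact absurd h (by change ¬ (false = true); decide)

theorem tab_sec : ∀ a < 256, ∀ w < 128, gK w ≠ 0 →
    0 < px a * py ((a + w) % 256) - py a * px ((a + w) % 256) ∧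
    ∃ (u v : ℤ) (C : ℕ), 0 < C ∧ (|u| ^ 5 + |v| ^ 5) ^ 3 ≤ (C : ℤ) ^ 5 ∧
      13161 * (((1048576 : ℕ) : ℤ) * C * (65536 : ℕ)) ≤ 10000 * ((gK w : ℤ) * (u ^ 3 * px a + v ^ 3 * py a)) ∧
      13161 * (((1048576 : ℕ) : ℤ) * C * (65536 : ℕ)) ≤
        10000 * ((gK w : ℤ) * (u ^ 3 * px ((a + w) % 256) + v ^ 3 * py ((a + w) % 256))) := by
  intro a ha w hw hk
  have h0 := allN_spec _ _ (allN_spec _ _ allS a ha) w hw
  have h1 : cnd (Nat.beq (gK w) 0) true (chkS2 (gK w) (tC ((2 * a + w) % 512)) (cube (tu ((2 * a + w) % 512)))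
    (cube (tv ((2 * a + w) % 512))) (qx a) (qy a) (qx ((a + w) % 256)) (qy ((a + w) % 256))) = true := h0
  have hb : Nat.beq (gK w) 0 = false := by
    cases hh : Nat.beq (gK w) 0 with
    | false => rfl
    | true => exact absurd (Nat.eq_of_beq_eq_true hh) hk
  rw [hb, cnd_false] at h1
  obtain ⟨h2, h3⟩ := cnd_and _ _ h1
  obtain ⟨h4, h5⟩ := cnd_and _ _ h3
  have h6 := nn_spec _ h2
  have h7 : 0 ≤ qx a * qy ((a + w) % 256) - qy a * qx ((a + w) % 256) - 1 := h6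
  obtain ⟨hC, hH⟩ := chkH_spec ((2 * a + w) % 512) (Nat.mod_lt _ (by norm_num))
  refine ⟨by rw [← qx_eq, ← qy_eq, ← qx_eq, ← qy_eq]; linarith, tu ((2 * a + w) % 512), tv ((2 * a + w) % 512),
    tC ((2 * a + w) % 512), hC, hH, ?_, ?_⟩
  · have := chkD_spec _ _ _ h4
    have e : Int.add (Int.mul (cube (tu ((2 * a + w) % 512))) (qx a)) (Int.mul (cube (tv ((2 * a + w) % 512))) (qy a)) =
      tu ((2 * a + w) % 512) ^ 3 * px a + tv ((2 * a + w) % 512) ^ 3 * py a := by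
      change (tu _ * tu _ * tu _) * qx a + (tv _ * tv _ * tv _) * qy a = _
      rw [qx_eq, qy_eq]; ring
    rw [e] at this; exact this
  · have := chkD_spec _ _ _ h5
    have e : Int.add (Int.mul (cube (tu ((2 * a + w) % 512))) (qx ((a + w) % 256)))
      (Int.mul (cube (tv ((2 * a + w) % 512))) (qy ((a + w) % 256))) =
      tu ((2 * a + w) % 512) ^ 3 * px ((a + w) % 256) + tv ((2 * a + w) % 512) ^ 3 * py ((a + w) % 256) := by
      change (tu _ * tu _ * tu _) * qx _ + (tv _ * tv _ * tv _) * qy _ = _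
      rw [qx_eq, qy_eq]; ring
    rw [e] at this; exact this

theorem beq'_spec (a b : ℤ) (h : Int.beq' a b = true) : a = b := by
  cases a <;> cases b <;> simp [Int.beq'] at h <;> simp [h]

theorem tab_anti : ∀ i < 128, px (i + 128) = - px i ∧ py (i + 128) = - py i := by
  intro i hi
  obtain ⟨h1, h2⟩ := cnd_and _ _ (allN_spec _ _ allA i hi)
  exact ⟨beq'_spec _ _ h1, beq'_spec _ _ h2⟩

theorem chkZ_spec (X Y sx sy x y : ℤ) (h : chkZ X Y sx sy x y = true) :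
    sy * y * Y < sx * x * X ∧ sx * x * Y < sy * y * X := by
  obtain ⟨h1, h2⟩ := cnd_and _ _ h
  have h3 : 0 ≤ sx * x * X - sy * y * Y - 1 := nn_spec _ h1
  have h4 : 0 ≤ sy * y * X - sx * x * Y - 1 := nn_spec _ h2
  constructor <;> linarith

theorem chkZZ_spec (Z : ℕ) (h : chkZZ Z = true) : ∀ q < 4, ∀ r, Z + 1 ≤ r → r + Z ≤ 63 →
    ∃ sx sy : ℤ, |sx| = 1 ∧ |sy| = 1 ∧ sx = (if q = 0 ∨ q = 3 then 1 else -1) ∧ sy = (if q ≤ 1 then 1 else -1) ∧
      sy * py (64 * q + r) * py Z < sx * px (64 * q + r) * px Z ∧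
      sx * px (64 * q + r) * py Z < sy * py (64 * q + r) * px Z := by
  intro q hq r hr1 hr2
  have h0 := allN_spec _ _ h r (by omega)
  have h1 : cnd (Nat.ble (Nat.succ Z) r) (cnd (Nat.ble (r + Z) 63)
    (cnd (chkZ (qx Z) (qy Z) 1 1 (qx r) (qy r))
    (cnd (chkZ (qx Z) (qy Z) (-1) 1 (qx (64 + r)) (qy (64 + r)))
    (cnd (chkZ (qx Z) (qy Z) (-1) (-1) (qx (128 + r)) (qy (128 + r)))
    (chkZ (qx Z) (qy Z) 1 (-1) (qx (192 + r)) (qy (192 + r))) false) false) false) true) true = true := h0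
  rw [Nat.ble_eq_true_of_le (show Nat.succ Z ≤ r from hr1), cnd_true, Nat.ble_eq_true_of_le hr2, cnd_true] at h1
  obtain ⟨a0, h2⟩ := cnd_and _ _ h1
  obtain ⟨a1, h3⟩ := cnd_and _ _ h2
  obtain ⟨a2, a3⟩ := cnd_and _ _ h3
  have b0 := chkZ_spec _ _ _ _ _ _ a0
  have b1 := chkZ_spec _ _ _ _ _ _ a1
  have b2 := chkZ_spec _ _ _ _ _ _ a2
  have b3 := chkZ_spec _ _ _ _ _ _ a3
  have hq' : q = 0 ∨ q = 1 ∨ q = 2 ∨ q = 3 := by omega
  rcases hq' with rfl | rfl | rfl | rfl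
  · refine ⟨1, 1, by norm_num, by norm_num, by norm_num, by norm_num, ?_⟩
    rw [show 64 * 0 + r = r by ring]
    exact b0
  · exact ⟨-1, 1, by norm_num, by norm_num, by norm_num, by norm_num, b1⟩
  · exact ⟨-1, -1, by norm_num, by norm_num, by norm_num, by norm_num, b2⟩
  · exact ⟨1, -1, by norm_num, by norm_num, by norm_num, by norm_num, b3⟩

theorem chkP_spec (Z : ℕ) (h : chkP Z = true) : 0 < py Z ∧ py Z < px Z := by
  obtain ⟨h1, h2⟩ := cnd_and _ _ h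
  have h3 : 0 ≤ qy Z - 1 := nn_spec _ h1
  have h4 : 0 ≤ qx Z - qy Z - 1 := nn_spec _ h2
  rw [qx_eq, qy_eq] at h4
  rw [qy_eq] at h3
  constructor <;> linarith

theorem tabOK : TabOK where
  nle := tab_nle
  gK0 := k0
  gK1 := by
    intro w h1 h2
    have h := allN_spec _ _ k1 (w - 128) (by omega)
    have h3 : Nat.beq (gK (w - 128 + 128)) 0 = true := h
    rw [Nat.sub_add_cancel h1] at h3
    exact Nat.eq_of_beq_eq_true h3
  sec := tab_sec
  anti := tab_anti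
  zone := by
    intro Z hZ
    rcases hZ with rfl | rfl | rfl
    · exact ⟨(chkP_spec _ p8).1, (chkP_spec _ p8).2, chkZZ_spec _ z8⟩
    · exact ⟨(chkP_spec _ p16).1, (chkP_spec _ p16).2, chkZZ_spec _ z16⟩
    · exact ⟨(chkP_spec _ p24).1, (chkP_spec _ p24).2, chkZZ_spec _ z24⟩

theorem gK_pos : ∀ w, 1 ≤ w → w ≤ 63 → gK w ≠ 0 := by
  intro w h1 h2
  have h := allN_spec _ _ k2 (w - 1) (by omega)
  have h3 : Nat.ble 1 (gK (w - 1 + 1)) = true := h
  rw [Nat.sub_add_cancel h1] at h3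
  have := Nat.le_of_ble_eq_true h3
  omega

theorem dir0 : px 0 = 1048576 ∧ py 0 = 0 := ⟨beq'_spec _ _ d0.1, beq'_spec _ _ d0.2⟩
theorem dir32 : px 32 = py 32 ∧ 0 < px 32 := by
  refine ⟨beq'_spec _ _ d32.1, ?_⟩
  have h : 0 ≤ qx 32 - 1 := nn_spec _ d32.2
  rw [qx_eq] at h; linarith

end Pool.Agent.H2.PD
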