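import Pool.Agent.H2.PD.Tab

/-! The checker of the branch and bound certificate. No Mathlib. -/

namespace Pool.Agent.H2.PD

/-- `frc n k = k n`, but the kernel evaluates `n` first. -/
noncomputable def frc {α : Type} (n : Nat) (k : Nat → α) : α :=
  Nat.rec (motive := fun _ => α) (k 0) (fun m _ => k m) (Nat.succ n)

theorem frc_eq {α : Type} (n : Nat) (k : Nat → α) : frc n k = k n := rfl

/-- Conditional on a Boolean. -/
noncomputable def cnd {α : Type} (c : Bool) (t e : α) : α :=
  Bool.rec (motive := fun _ => α) e t c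

theorem cnd_true {α : Type} (t e : α) : cnd true t e = t := rfl
theorem cnd_false {α : Type} (t e : α) : cnd false t e = e := rfl

/-- Entry `i` of the table of directions. -/
noncomputable def gE (i : Nat) : Nat := Nat.land (Nat.shiftRight PT (Nat.mul 44 i)) 17592186044415

/-- Outer factor for the width `w`. -/
noncomputable def gK (w : Nat) : Nat := Nat.land (Nat.shiftRight KT (Nat.mul 26 w)) 67108863

/-- Contribution for the value `A - B` with the outer factor `k`. -/
noncomputable def fin (k A B : Nat) : Nat :=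
  cnd (Nat.ble B A) (Nat.add 1152921504606846976 (Nat.mul k (Nat.sub A B)))
    (Nat.sub 1152921504606846976 (Nat.mul 65536 (Nat.sub B A)))

/-- Scalar product of the shifted vectors. -/
noncomputable def dot (H E : Nat) : Nat :=
  Nat.add (Nat.mul (Nat.land H 65535) (Nat.land E 4194303)) (Nat.mul (Nat.shiftRight H 16) (Nat.shiftRight E 22))

/-- Correction for the shift. -/
noncomputable def sS (H : Nat) : Nat := Nat.mul 1048576 (Nat.add (Nat.land H 65535) (Nat.shiftRight H 16))

noncomputable def ev3 (k A1 B1 A2 B2 : Nat) : Nat :=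
  frc A1 fun A1 => frc B1 fun B1 => frc A2 fun A2 => frc B2 fun B2 =>
  cnd (Nat.ble (Nat.add A2 B1) (Nat.add A1 B2)) (fin k A1 B1) (fin k A2 B2)

noncomputable def ev2 (k Ea Ej H T : Nat) : Nat :=
  frc Ea fun Ea => frc Ej fun Ej => frc (sS H) fun sh => frc (sS T) fun st =>
  ev3 k (Nat.add (dot H Ea) st) (Nat.add (dot T Ea) sh) (Nat.add (dot H Ej) st) (Nat.add (dot T Ej) sh)

noncomputable def ev1 (w a H T : Nat) : Nat :=
  frc (gK w) fun k =>
  cnd (Nat.beq k 0) 4611686018427387904 (ev2 k (gE a) (gE (Nat.land (Nat.add a w) 255)) H T)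

/-- Contribution of an edge with sector code `c` and potentials `H` (head), `T` (tail). -/
noncomputable def ev (c H T : Nat) : Nat :=
  cnd (Nat.beq H T) 1152921504606846976 (frc c fun c => ev1 (Nat.shiftRight c 8) (Nat.land c 255) H T)

/-- Sector code of edge `e` in the state `s` (the low 24 bits of the state are a serial number). -/
noncomputable def sc (s e : Nat) : Nat := Nat.land (Nat.shiftRight s (Nat.add 24 (Nat.mul 16 e))) 65535

/-- Potential of the vertex `v`. -/
noncomputable def sl (q v : Nat) : Nat := Nat.land (Nat.shiftRight q (Nat.mul 32 v)) 4294967295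

/-- Leaf at the vertex `v` (a cycle vertex if `v ≤ 8`, otherwise a hub) with potential `Y`. -/
noncomputable def lleaf (s v Y : Nat) : Bool :=
  cnd (Nat.ble v 8)
    (Nat.ble (Nat.succ (Nat.add (ev (sc s v) 2147516416 Y) (Nat.add (ev (sc s (cnd (Nat.beq v 0) 8 (Nat.sub v 1))) Y
      2147516416) (ev (sc s (Nat.add v 9)) Y 2147516416)))) 3458764513820540928)
    (Nat.ble (Nat.succ (Nat.add (ev (sc s v) 2147516416 Y) (Nat.add (ev (sc s (Nat.add v 3)) 2147516416 Y)
      (ev (sc s (Nat.add v 6)) 2147516416 Y)))) 3458764513820540928)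

/-- Leaf with general potentials: the sum of the contributions is less than `18 * 2^60`. -/
noncomputable def leaf (s q : Nat) : Bool :=
  Nat.ble (Nat.succ (Nat.add (Nat.add
    (Nat.add (Nat.add (Nat.add (ev (sc s 0) (sl q 1) (sl q 0)) (ev (sc s 1) (sl q 2) (sl q 1)))
      (Nat.add (ev (sc s 2) (sl q 3) (sl q 2)) (ev (sc s 3) (sl q 4) (sl q 3))))
      (Nat.add (Nat.add (ev (sc s 4) (sl q 5) (sl q 4)) (ev (sc s 5) (sl q 6) (sl q 5)))
      (Nat.add (ev (sc s 6) (sl q 7) (sl q 6)) (ev (sc s 7) (sl q 8) (sl q 7)))))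
    (Nat.add (Nat.add (Nat.add (ev (sc s 8) (sl q 0) (sl q 8)) (ev (sc s 9) (sl q 0) (sl q 9)))
      (Nat.add (ev (sc s 10) (sl q 1) (sl q 10)) (ev (sc s 11) (sl q 2) (sl q 11))))
      (Nat.add (Nat.add (ev (sc s 12) (sl q 3) (sl q 9)) (ev (sc s 13) (sl q 4) (sl q 10)))
      (Nat.add (ev (sc s 14) (sl q 5) (sl q 11)) (ev (sc s 15) (sl q 6) (sl q 9))))))
    (Nat.add (ev (sc s 16) (sl q 7) (sl q 10)) (ev (sc s 17) (sl q 8) (sl q 11))))) 20752587082923245568

/-- Replace the code `c` of the edge `e` by `n`, and the serial number by `m`. -/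
noncomputable def upd (s e c n m : Nat) : Nat :=
  Nat.add (Nat.add (Nat.sub (Nat.sub s (Nat.shiftLeft c (Nat.add 24 (Nat.mul 16 e)))) (Nat.land s 16777215))
    (Nat.shiftLeft n (Nat.add 24 (Nat.mul 16 e)))) m

/-- The code of the sector with start `a` (reduced mod 256) and width `w`. -/
noncomputable def cod (a w : Nat) : Nat := Nat.add (Nat.land a 255) (Nat.mul 256 w)

/-- Two new states. -/
noncomputable def psh2 (s1 s2 T : Nat) (rest : List Nat) (go : Nat → List Nat → Bool) : Bool :=
  frc s1 fun s1 => frc s2 fun s2 => frc T fun T => go T (List.cons s1 (List.cons s2 rest))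

/-- Split of the sector of the edge `e` at `k`. -/
noncomputable def stS (n e k s c T : Nat) (rest : List Nat) (go : Nat → List Nat → Bool) : Bool :=
  cnd (Nat.ble 1 k) (cnd (Nat.ble (Nat.succ k) (Nat.shiftRight c 8))
    (psh2 (upd s e c (cod c k) (Nat.mul 4 n))
      (upd s e c (cod (Nat.add (Nat.land c 255) k) (Nat.sub (Nat.shiftRight c 8) k)) (Nat.succ (Nat.mul 4 n)))
      (Nat.shiftRight T 15) rest go) false) false

/-- Four new states. -/
noncomputable def psh4 (s1 s2 s3 s4 T : Nat) (rest : List Nat) (go : Nat → List Nat → Bool) : Bool :=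
  frc s1 fun s1 => frc s2 fun s2 => frc s3 fun s3 => frc s4 fun s4 => frc T fun T =>
    go T (List.cons s1 (List.cons s2 (List.cons s3 (List.cons s4 rest))))

/-- Opening of the edge `e` with the cut directions `a`, `a + w`. -/
noncomputable def stO (n e a w s T : Nat) (rest : List Nat) (go : Nat → List Nat → Bool) : Bool :=
  cnd (Nat.beq (sc s e) 0) (cnd (Nat.ble 1 w)
    (psh4 (upd s e 0 (cod a w) (Nat.mul 4 n))
      (upd s e 0 (cod (Nat.add a w) (Nat.sub 128 w)) (Nat.add (Nat.mul 4 n) 1))
      (upd s e 0 (cod (Nat.add a 128) w) (Nat.add (Nat.mul 4 n) 2))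
      (upd s e 0 (cod (Nat.add (Nat.add a 128) w) (Nat.sub 128 w)) (Nat.add (Nat.mul 4 n) 3))
      (Nat.shiftRight T 23) rest go) false) false

/-- Leaf by the normalisation: the sector of the cycle edge `e` is in the excluded zone. -/
noncomputable def stZ (Z e c T : Nat) (rest : List Nat) (go : Nat → List Nat → Bool) : Bool :=
  cnd (Nat.ble e 8) (cnd (Nat.ble 256 c) (cnd (Nat.ble (Nat.succ Z) (Nat.land c 63))
    (cnd (Nat.ble (Nat.add (Nat.add (Nat.land c 63) (Nat.shiftRight c 8)) Z) 63)
      (frc (Nat.shiftRight T 8) fun T => go T rest) false) false) false) false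

/-- One step. -/
noncomputable def step (Z n s T : Nat) (rest cs : List Nat) (ih : List Nat → Nat → List Nat → Bool) : Bool :=
  frc (Nat.land T 7) fun h =>
  cnd (Nat.beq h 1)
    (cnd (lleaf s (Nat.land (Nat.shiftRight T 3) 15) (Nat.land (Nat.shiftRight T 7) 4294967295))
      (frc (Nat.shiftRight T 39) fun T => ih cs T rest) false) <|
  cnd (Nat.beq h 2)
    (frc (Nat.land (Nat.shiftRight T 3) 31) fun e => frc (Nat.land (Nat.shiftRight T 8) 127) fun k =>
      frc (sc s e) fun c => stS n e k s c T rest (ih cs)) <|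
  cnd (Nat.beq h 5)
    (frc (Nat.land (Nat.shiftRight T 3) 31) fun e => frc (sc s e) fun c => stZ Z e c T rest (ih cs)) <|
  cnd (Nat.beq h 3)
    (frc (Nat.land (Nat.shiftRight T 3) 31) fun e => frc (Nat.land (Nat.shiftRight T 8) 255) fun a =>
      frc (Nat.land (Nat.shiftRight T 16) 127) fun w => stO n e a w s T rest (ih cs)) <|
  cnd (Nat.beq h 0)
    (cnd (leaf s (Nat.shiftRight T 3)) (frc (Nat.shiftRight T 387) fun T => ih cs T rest) false) <|
  List.rec (motive := fun _ => Bool) false (fun T' cs' _ => ih cs' T' (List.cons s rest)) cs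

/-- The machine: fuel, remaining chunks of the token stream, current chunk, stack of states. -/
noncomputable def run (Z fuel : Nat) : List Nat → Nat → List Nat → Bool :=
  Nat.rec (motive := fun _ => List Nat → Nat → List Nat → Bool)
    (fun _ _ _ => false)
    (fun n ih cs T st =>
      List.rec (motive := fun _ => Bool) true (fun s rest _ => step Z n s T rest cs ih) st) fuel

end Pool.Agent.H2.PD
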