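import Mathlib

/-!
Multigraphs, flows with values in `ℝ^d` and the flow index with respect to the `p`-norm.
-/

open scoped ENNReal

namespace Pool.Agent.H2.PD

/-- A finite multigraph is given by the tail `tl e` and the head `hd e` of each edge `e` (a reference orientation).
It is bridgeless if no set `Z` of vertices is left by exactly one edge. -/
def Bridgeless {V E : Type} [Fintype E] (tl hd : E → V) : Prop :=
  ∀ Z : Set V, {e : E | ¬ (tl e ∈ Z ↔ hd e ∈ Z)}.ncard ≠ 1

/-- Kirchhoff's law for a map `f` from the edges to `ℝ^d`: at each vertex the sum over the edges with this tail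
equals the sum over the edges with this head. -/
def IsFlow {V E : Type} [Fintype E] [DecidableEq V] (tl hd : E → V) {d : ℕ} (f : E → Fin d → ℝ) : Prop :=
  ∀ v : V, ∑ e with tl e = v, f e = ∑ e with hd e = v, f e

/-- The `p`-norm of a vector of `ℝ^d`, `p ∈ [1, ∞]`: `(∑ |x_i|^p)^(1/p)`, and `max |x_i|` for `p = ∞`
(Mathlib's `PiLp` norm). -/
noncomputable def pnorm {d : ℕ} (p : ℝ≥0∞) (x : Fin d → ℝ) : ℝ :=
  ‖(WithLp.toLp p x : PiLp p (fun _ : Fin d => ℝ))‖

/-- A `d`-dimensional nowhere-zero `r`-flow with respect to the `p`-norm. (For another orientation of the edges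
change the signs of the values.) -/
def HasNZF {V E : Type} [Fintype E] [DecidableEq V] (tl hd : E → V) (d : ℕ) (p : ℝ≥0∞) (r : ℝ) : Prop :=
  ∃ f : E → Fin d → ℝ, IsFlow tl hd f ∧ ∀ e, 1 ≤ pnorm p (f e) ∧ pnorm p (f e) ≤ r - 1

/-- The flow index: the infimum of all `r ≥ 2` for which there is a `d`-dimensional nowhere-zero `r`-flow with
respect to the `p`-norm. -/
noncomputable def flowIndex {V E : Type} [Fintype E] [DecidableEq V] (tl hd : E → V) (d : ℕ) (p : ℝ≥0∞) : ℝ :=
  sInf {r : ℝ | 2 ≤ r ∧ HasNZF tl hd d p r}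

end Pool.Agent.H2.PD
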