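import Mathlib

/-!
Statements for the disproof of MP_fd4632_co (duality of p-normed flow indices).
Every `S_x : Prop` is one subtask; the proof is sketched in its docstring.
-/

namespace Pool.Agent.H2.PD

/-- The `ℓ_{5/2}` norm of the vector `(x, y)` of the plane. -/
noncomputable def N (x y : ℝ) : ℝ := (|x| ^ (5/2 : ℝ) + |y| ^ (5/2 : ℝ)) ^ (2/5 : ℝ)

/-- The `ℓ_p` norm of the vector `(x, y)` of the plane, `1 ≤ p < ∞`. -/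
noncomputable def Np (p x y : ℝ) : ℝ := (|x| ^ p + |y| ^ p) ^ (1/p)

/-- Hoelder with exponents `5/3`, `5/2`: `‖(u^3, v^3)‖_{5/3} = (|u|^5 + |v|^5)^{3/5} ≤ C`.
Proof: `Real.inner_le_Lp_mul_Lq` (or weighted AM-GM) for two summands;
`(|u|^3)^(5/3) = |u|^5`. -/
def S_hold : Prop := ∀ (u v : ℤ) (C : ℕ), (|u| ^ 5 + |v| ^ 5) ^ 3 ≤ (C : ℤ) ^ 5 →
  ∀ x y : ℝ, (u : ℝ) ^ 3 * x + (v : ℝ) ^ 3 * y ≤ C * N x y

/-- Integer test for `‖(x, y)‖_{5/2} ≤ S`. Proof: with `a = |x|^5`, `b = |y|^5`, `c = S^5` one has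
`√a + √b ≤ √c`, because `a + b + 2 √(a b) ≤ c` by the hypotheses; and `|x|^(5/2) = √(|x|^5)`. -/
def S_nle : Prop := ∀ (x y : ℤ) (S : ℕ), |x| ^ 5 + |y| ^ 5 ≤ (S : ℤ) ^ 5 →
  4 * (|x| ^ 5 * |y| ^ 5) ≤ ((S : ℤ) ^ 5 - |x| ^ 5 - |y| ^ 5) ^ 2 → N (x : ℝ) (y : ℝ) ≤ S

/-- Triangle inequality (Minkowski, e.g. `Real.Lp_add_le` for `Finset.univ : Finset (Fin 2)`) and homogeneity,
nonnegativity, definiteness. -/
def S_tri : Prop := (∀ x y x' y' : ℝ, N (x + x') (y + y') ≤ N x y + N x' y') ∧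
  (∀ c x y : ℝ, N (c * x) (c * y) = |c| * N x y) ∧ (∀ x y : ℝ, 0 ≤ N x y) ∧ N 0 0 = 0

/-- The sector lemma. `P = (a1, a2)`, `Q = (b1, b2)`, `t = (u^3, v^3)`. The vector `f = (x, y)` lies in the cone spanned
by `P, Q` (conditions on the determinants), so `f = α P + β Q` with `α, β ≥ 0`
(`α = (x b2 - y b1)/det`, `β = (a1 y - a2 x)/det`). From `1 ≤ N f ≤ (α + β) S` get `1 ≤ (α + β) S`.
From `⟨t, f⟩ ≤ C N f ≤ 1.3161 C` (`S_hold`) and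
`⟨t, f⟩ = α ⟨t,P⟩ + β ⟨t,Q⟩ ≥ (α + β) 1.3161 S C D / K` get `(α + β) D S ≤ K`.
So `D S ⟨z, f⟩ = D S (α ⟨z,P⟩ + β ⟨z,Q⟩) ≤ D S (α+β) M`, which is `≤ K M` if `M ≥ 0` and `≤ D M` if `M < 0`. -/
def S_sec : Prop := ∀ (a1 a2 b1 b2 u v z1 z2 M : ℤ) (S K D C : ℕ), 0 < S → 0 < C → 0 < D →
  N a1 a2 ≤ S → N b1 b2 ≤ S → 0 < a1 * b2 - a2 * b1 → (|u| ^ 5 + |v| ^ 5) ^ 3 ≤ (C : ℤ) ^ 5 →
  13161 * ((S : ℤ) * C * D) ≤ 10000 * (K * (u ^ 3 * a1 + v ^ 3 * a2)) →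
  13161 * ((S : ℤ) * C * D) ≤ 10000 * (K * (u ^ 3 * b1 + v ^ 3 * b2)) →
  z1 * a1 + z2 * a2 ≤ M → z1 * b1 + z2 * b2 ≤ M →
  ∀ x y : ℝ, 0 ≤ a1 * y - a2 * x → 0 ≤ x * b2 - y * b1 → 1 ≤ N x y → N x y ≤ 13161 / 10000 →
  (D : ℝ) * S * (z1 * x + z2 * y) ≤ if 0 ≤ M then (K : ℝ) * M else (D : ℝ) * M

/-- Integer test for the `ℓ_p` norm on an interval of exponents `r1/s ≤ p ≤ r2/s`. The norm decreases in `p`
(`NNReal.rpow_add_rpow_le` / `Real.rpow_add_rpow_le`), `x^(r1/s) ≤ ux`, `y^(r1/s) ≤ uy`,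
`ux + uy ≤ M^(r1/s)`, and similarly from below at `r2/s`. -/
def S_itv : Prop := ∀ (x y : ℤ) (m M r1 r2 s ux uy lx ly : ℕ), 0 < s → s ≤ r1 → r1 ≤ r2 →
  x.natAbs ^ r1 ≤ ux ^ s → y.natAbs ^ r1 ≤ uy ^ s → (ux + uy) ^ s ≤ M ^ r1 →
  lx ^ s ≤ x.natAbs ^ r2 → ly ^ s ≤ y.natAbs ^ r2 → m ^ r2 ≤ (lx + ly) ^ s →
  ∀ p : ℝ, (r1 : ℝ) / s ≤ p → p ≤ (r2 : ℝ) / s →
    (m : ℝ) ≤ Np p (x : ℝ) (y : ℝ) ∧ Np p (x : ℝ) (y : ℝ) ≤ M

/-- For `1 ≤ p ≤ 1.656`: the norms of `(±1, ±1)` are `2^(1/p)`, those of `(±2, 0)`, `(0, ±2)` are `2`, and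
`2 ≤ 1.316 * 2^(1/p)` since `2^(1 - 1/1.656) = 2^(82/207) ≤ 1.316`, i.e. `2^82 ≤ 1.316^207`
(`norm_num` decides it; check: `82 ln 2 = 56.838`, `207 ln 1.316 = 56.842`). -/
def S_two : Prop := ∀ (a b : ℤ), (|a| = 1 ∧ |b| = 1) ∨ (|a| = 2 ∧ b = 0) ∨ (a = 0 ∧ |b| = 2) →
  ∀ p : ℝ, 1 ≤ p → p ≤ 207 / 125 →
    (2 : ℝ) ^ (1 / p) ≤ Np p a b ∧ Np p a b ≤ 1316 / 1000 * (2 : ℝ) ^ (1 / p)

/-- Tails of the 18 edges: edge `e < 9` goes from `e` to `e + 1 mod 9`, edge `9 + i` from the hub `9 + i mod 3` to `i`. -/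
def tl : Fin 18 → Fin 12 := ![0, 1, 2, 3, 4, 5, 6, 7, 8, 9, 10, 11, 9, 10, 11, 9, 10, 11]

/-- Heads of the 18 edges. -/
def hd : Fin 18 → Fin 12 := ![1, 2, 3, 4, 5, 6, 7, 8, 0, 0, 1, 2, 3, 4, 5, 6, 7, 8]

/-- A real flow of the graph. -/
def Fl (X : Fin 18 → ℝ) : Prop :=
  ∀ v : Fin 12, ∑ e with tl e = v, X e = ∑ e with hd e = v, X e

/-- A flow with values in the plane whose `ℓ_{5/2}` norms are between `1` and `1.3161`. -/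
def Good (X Y : Fin 18 → ℝ) : Prop :=
  Fl X ∧ Fl Y ∧ ∀ e, 1 ≤ N (X e) (Y e) ∧ N (X e) (Y e) ≤ 13161 / 10000

/-- Normalisation: the value of edge `0` lies in the first octant, and among the nine cycle edges it has the largest
ratio (smaller absolute coordinate)/(larger absolute coordinate). -/
def Normed (X Y : Fin 18 → ℝ) : Prop :=
  0 ≤ Y 0 ∧ Y 0 ≤ X 0 ∧
    ∀ e : Fin 18, e.val < 9 → min |X e| |Y e| * X 0 ≤ max |X e| |Y e| * Y 0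

/-- Without loss of generality `Normed`. Proof: choose the cycle edge `j < 9` with the largest ratio `min/max`
(`max > 0` since the norm is `≥ 1`); rotate the graph: `X' e = X (e + j mod 9)` for `e < 9` and
`X' (9 + i) = X (9 + (i + j mod 9))` is again a flow (the hubs are permuted by `j mod 3`); it is enough to do this for the
rotation by `1` and iterate, or for each `j : Fin 9` by `fin_cases`. Then apply one of the 8 symmetries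
`(x, y) ↦ (± x, ± y), (± y, ± x)` to all values so that the value of edge `0` is in the first octant; these preserve `N`, `Fl`
and the ratios. -/
def S_wlog : Prop := (¬ ∃ X Y, Good X Y ∧ Normed X Y) → ¬ ∃ X Y, Good X Y

/-- Digits in base `2^16`: replacing digit `e` (value `c`) of `s` by `n`. -/
def S_dig : Prop := ∀ (s e n : ℕ), n < 65536 → ∀ e' : ℕ,
  (s - (s / 65536 ^ e % 65536) * 65536 ^ e + n * 65536 ^ e) / 65536 ^ e' % 65536 =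
    if e' = e then n else s / 65536 ^ e' % 65536

end Pool.Agent.H2.PD
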