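import Mathlib
import Pool.Agent.H2.PD.Defs
import Pool.Agent.H2.PD.Stm
import Pool.Agent.H2.PD.Chk

/-!
Soundness of the checker `run` (file `Chk.lean`). Every `S_x : Prop` is one subtask.
The definitions of `Chk.lean` use raw `Nat.land`, `Nat.shiftRight`, ...; useful: `frc_eq`, `cnd_true`, `cnd_false`,
`Nat.and_two_pow_sub_one_eq_mod`, `Nat.shiftRight_eq_div_pow`, `Nat.shiftLeft_eq`, `Nat.land = (· &&& ·)` by `rfl`.
-/

namespace Pool.Agent.H2.PD

/-- First coordinate of the direction `i < 256` (scaled by `2^20`). -/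
noncomputable def px (i : ℕ) : ℤ := ((gE i % 4194304 : ℕ) : ℤ) - 1048576

/-- Second coordinate of the direction `i < 256` (scaled by `2^20`). -/
noncomputable def py (i : ℕ) : ℤ := ((gE i / 4194304 : ℕ) : ℤ) - 1048576

/-- Facts about the tables, proved by kernel computation in another file. -/
structure TabOK : Prop where
  nle : ∀ i < 256, |px i| ^ 5 + |py i| ^ 5 ≤ ((1048576 : ℕ) : ℤ) ^ 5 ∧
    4 * (|px i| ^ 5 * |py i| ^ 5) ≤ (((1048576 : ℕ) : ℤ) ^ 5 - |px i| ^ 5 - |py i| ^ 5) ^ 2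
  gK0 : gK 0 = 0
  gK1 : ∀ w, 128 ≤ w → w < 256 → gK w = 0
  sec : ∀ a < 256, ∀ w < 128, gK w ≠ 0 →
    0 < px a * py ((a + w) % 256) - py a * px ((a + w) % 256) ∧
    ∃ (u v : ℤ) (C : ℕ), 0 < C ∧ (|u| ^ 5 + |v| ^ 5) ^ 3 ≤ (C : ℤ) ^ 5 ∧
      13161 * (((1048576 : ℕ) : ℤ) * C * (65536 : ℕ)) ≤ 10000 * ((gK w : ℤ) * (u ^ 3 * px a + v ^ 3 * py a)) ∧
      13161 * (((1048576 : ℕ) : ℤ) * C * (65536 : ℕ)) ≤
        10000 * ((gK w : ℤ) * (u ^ 3 * px ((a + w) % 256) + v ^ 3 * py ((a + w) % 256)))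
  anti : ∀ i < 128, px (i + 128) = - px i ∧ py (i + 128) = - py i
  zone : ∀ Z, Z = 8 ∨ Z = 16 ∨ Z = 24 → 0 < py Z ∧ py Z < px Z ∧ ∀ q < 4, ∀ r, Z + 1 ≤ r → r + Z ≤ 63 →
    ∃ sx sy : ℤ, |sx| = 1 ∧ |sy| = 1 ∧ sx = (if q = 0 ∨ q = 3 then 1 else -1) ∧ sy = (if q ≤ 1 then 1 else -1) ∧
      sy * py (64 * q + r) * py Z < sx * px (64 * q + r) * px Z ∧
      sx * px (64 * q + r) * py Z < sy * py (64 * q + r) * px Z

/-- The vector `(x, y)` lies in the sector with code `c = a + 256 w` (no condition if `w = 0`). -/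
def InS (c : ℕ) (x y : ℝ) : Prop :=
  c / 256 = 0 ∨ (0 ≤ (px (c % 256) : ℝ) * y - (py (c % 256) : ℝ) * x ∧
    0 ≤ x * (py ((c % 256 + c / 256) % 256) : ℝ) - y * (px ((c % 256 + c / 256) % 256) : ℝ))

/-- Bound for the contribution of one edge. Proof: if `H = T` trivial. If `k = gK w = 0` use
`|x|, |y| ≤ N x y ≤ 1.3161`. Otherwise `w ≥ 1`, `w < 128`; apply the sector lemma `S_sec` with `P = (px a, py a)`,
`Q = (px j, py j)`, `S = 2^20`, `D = 2^16`, `K = k`, `z = (H % 65536 - T % 65536, H / 65536 - T / 65536)` and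
`M` the larger one of `A1 - B1 = ⟨z, P⟩`, `A2 - B2 = ⟨z, Q⟩`. (`N P ≤ S` by `S_nle`.) In `fin`: if `B ≤ A` the value is
`2^60 + k (A - B)`, otherwise `2^60 - 65536 (B - A)` (natural subtraction, the result is at least the integer value). -/
def S_ev : Prop := S_sec → S_nle → TabOK → ∀ c H T : ℕ, c < 65536 → H < 2 ^ 32 → T < 2 ^ 32 → ∀ x y : ℝ,
  1 ≤ N x y → N x y ≤ 13161 / 10000 → InS c x y →
  (2 : ℝ) ^ 60 + 2 ^ 36 * ((((H % 65536 : ℕ) : ℝ) - ((T % 65536 : ℕ) : ℝ)) * x +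
    (((H / 65536 : ℕ) : ℝ) - ((T / 65536 : ℕ) : ℝ)) * y) ≤ (ev c H T : ℝ)

/-- The conclusion of `S_ev`. -/
def EvOK : Prop := ∀ c H T : ℕ, c < 65536 → H < 2 ^ 32 → T < 2 ^ 32 → ∀ x y : ℝ,
  1 ≤ N x y → N x y ≤ 13161 / 10000 → InS c x y →
  (2 : ℝ) ^ 60 + 2 ^ 36 * ((((H % 65536 : ℕ) : ℝ) - ((T % 65536 : ℕ) : ℝ)) * x +
    (((H / 65536 : ℕ) : ℝ) - ((T / 65536 : ℕ) : ℝ)) * y) ≤ (ev c H T : ℝ)

/-- A flow with values in the plane, edges indexed by `ℕ` (only `e < 18` matter): edge `e < 9` from `e` to `e + 1 mod 9`,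
edge `9 + i` from the hub `9 + i mod 3` to `i`. -/
structure GoodN (X Y : ℕ → ℝ) : Prop where
  cx : ∀ v < 9, X v = X ((v + 8) % 9) + X (v + 9)
  cy : ∀ v < 9, Y v = Y ((v + 8) % 9) + Y (v + 9)
  hx : ∀ j < 3, X (9 + j) + X (12 + j) + X (15 + j) = 0
  hy : ∀ j < 3, Y (9 + j) + Y (12 + j) + Y (15 + j) = 0
  nm : ∀ e < 18, 1 ≤ N (X e) (Y e) ∧ N (X e) (Y e) ≤ 13161 / 10000

/-- All values lie in the sectors of the state `s`. -/
def InState (s : ℕ) (X Y : ℕ → ℝ) : Prop := ∀ e < 18, InS (sc s e) (X e) (Y e)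

/-- Soundness of the leaf at a vertex: add the three inequalities of `EvOK` (with `H, T` = `w`, `2147516416 = 0x80008000`,
difference of the coordinates `± (w - 32768)`), the linear terms cancel by Kirchhoff's law at `v`. -/
def S_lleaf : Prop := EvOK → ∀ (X Y : ℕ → ℝ), GoodN X Y → ∀ s v w : ℕ, v < 16 → w < 2 ^ 32 → InState s X Y →
  lleaf s v w = true → v < 12 → False

/-- Soundness of the general leaf: add the 18 inequalities of `EvOK`; the linear terms cancel by Kirchhoff's law at the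
12 vertices (potential `sl q v` of vertex `v`; edge `e < 9` has tail `e`, head `e + 1 mod 9`; edge `9 + i` has tail
`9 + i mod 3`, head `i`). -/
def S_leaf : Prop := EvOK → ∀ (X Y : ℕ → ℝ), GoodN X Y → ∀ s q : ℕ, InState s X Y → leaf s q = true → False

/-- Replacing the code of edge `e`; follows from `S_dig` (theorem `Pool.Agent.H828.PD...dig`). -/
def S_upd : Prop := S_dig → ∀ s e n m : ℕ, n < 65536 → m < 16777216 → ∀ e', 
  sc (upd s e (sc s e) n m) e' = if e' = e then n else sc s e'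

/-- Splitting a sector (`c = a + 256 w`, `1 ≤ k < w`) and opening an unrestricted edge with the two lines through the
directions `a` and `a + w` (`1 ≤ w < 128`, `a < 256`); uses `TabOK.anti` (indices mod 256). -/
def S_cut : Prop := TabOK →
  (∀ (c k : ℕ) (x y : ℝ), c < 65536 → 1 ≤ k → k + 1 ≤ c / 256 → InS c x y →
    InS (c % 256 + 256 * k) x y ∨ InS ((c % 256 + k) % 256 + 256 * (c / 256 - k)) x y) ∧
  (∀ (a w : ℕ) (x y : ℝ), a < 256 → 1 ≤ w → w < 128 →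
    InS (a % 256 + 256 * w) x y ∨ InS ((a + w) % 256 + 256 * (128 - w)) x y ∨
    InS ((a + 128) % 256 + 256 * w) x y ∨ InS ((a + 128 + w) % 256 + 256 * (128 - w)) x y)

/-- A vector in a sector inside the excluded zone: with `a = c % 256 = 64 q + r`, both end directions
`64 q + r`, `64 q + r + w` satisfy `TabOK.zone`; if the determinant of the two directions is positive then `(x, y)` is a
nonnegative combination of them (`gK (c/256) ≠ 0` gives this by `TabOK.sec`; note that the width is at most `63` here). -/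
def S_zone : Prop := TabOK → ∀ (Z c : ℕ) (x y : ℝ), (Z = 8 ∨ Z = 16 ∨ Z = 24) → c < 65536 → 256 ≤ c →
  Z + 1 ≤ c % 64 → c % 64 + c / 256 + Z ≤ 63 → gK (c / 256) ≠ 0 → InS c x y → (x, y) ≠ (0, 0) →
  max |x| |y| * (py Z : ℝ) < min |x| |y| * (px Z : ℝ)

/-- Soundness of the machine. Induction on `fuel`; each step is justified by one of the lemmas. -/
def S_run : Prop := EvOK → S_lleaf → S_leaf → S_upd → S_dig → S_cut → S_zone → TabOK →
  (∀ w, 1 ≤ w → w ≤ 63 → gK w ≠ 0) →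
  ∀ (X Y : ℕ → ℝ), GoodN X Y → ∀ Z, (Z = 8 ∨ Z = 16 ∨ Z = 24 ∨ Z = 32) →
  (Z = 32 ∨ ∀ e < 9, min |X e| |Y e| * (px Z : ℝ) ≤ max |X e| |Y e| * (py Z : ℝ)) →
  ∀ (fuel : ℕ), fuel ≤ 4000000 → ∀ (cs : List ℕ) (T : ℕ) (st : List ℕ), run Z fuel cs T st = true →
    ∀ s ∈ st, ¬ InState s X Y

end Pool.Agent.H2.PD
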