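import Pool.Agent.H2.PD.StmChk
import Pool.Agent.H2.PD.TabPf
import Pool.Agent.H2.PD.Cert00
import Pool.Agent.H2.PD.Cert08
import Pool.Agent.H2.PD.Cert16
import Pool.Agent.H2.PD.Cert24
import Pool.Agent.H97.PDrun

/-! Lower bound: there is no flow with `ℓ_{5/2}` norms between `1` and `1.3161`. -/

namespace Pool.Agent.H2.PD

/-- Extension by zero to all natural numbers. -/
def ext (X : Fin 18 → ℝ) (e : ℕ) : ℝ := if h : e < 18 then X ⟨e, h⟩ else 0

theorem ext_eq (X : Fin 18 → ℝ) (e : ℕ) (h : e < 18) : ext X e = X ⟨e, h⟩ := by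
  unfold ext; rw [dif_pos h]

theorem eq0 (X : Fin 18 → ℝ) (h : Fl X) : X 0 = X 8 + X 9 := by
  have h0 := h 0
  rw [show (Finset.univ.filter (fun e => tl e = 0)) = {0} by decide,
    show (Finset.univ.filter (fun e => hd e = 0)) = {8, 9} by decide,
    Finset.sum_singleton, Finset.sum_pair (by decide)] at h0
  exact h0

theorem eq1 (X : Fin 18 → ℝ) (h : Fl X) : X 1 = X 0 + X 10 := by
  have h0 := h 1
  rw [show (Finset.univ.filter (fun e => tl e = 1)) = {1} by decide,
    show (Finset.univ.filter (fun e => hd e = 1)) = {0, 10} by decide,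
    Finset.sum_singleton, Finset.sum_pair (by decide)] at h0
  exact h0

theorem eq2 (X : Fin 18 → ℝ) (h : Fl X) : X 2 = X 1 + X 11 := by
  have h0 := h 2
  rw [show (Finset.univ.filter (fun e => tl e = 2)) = {2} by decide,
    show (Finset.univ.filter (fun e => hd e = 2)) = {1, 11} by decide,
    Finset.sum_singleton, Finset.sum_pair (by decide)] at h0
  exact h0

theorem eq3 (X : Fin 18 → ℝ) (h : Fl X) : X 3 = X 2 + X 12 := by
  have h0 := h 3
  rw [show (Finset.univ.filter (fun e => tl e = 3)) = {3} by decide,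
    show (Finset.univ.filter (fun e => hd e = 3)) = {2, 12} by decide,
    Finset.sum_singleton, Finset.sum_pair (by decide)] at h0
  exact h0

theorem eq4 (X : Fin 18 → ℝ) (h : Fl X) : X 4 = X 3 + X 13 := by
  have h0 := h 4
  rw [show (Finset.univ.filter (fun e => tl e = 4)) = {4} by decide,
    show (Finset.univ.filter (fun e => hd e = 4)) = {3, 13} by decide,
    Finset.sum_singleton, Finset.sum_pair (by decide)] at h0
  exact h0

theorem eq5 (X : Fin 18 → ℝ) (h : Fl X) : X 5 = X 4 + X 14 := by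
  have h0 := h 5
  rw [show (Finset.univ.filter (fun e => tl e = 5)) = {5} by decide,
    show (Finset.univ.filter (fun e => hd e = 5)) = {4, 14} by decide,
    Finset.sum_singleton, Finset.sum_pair (by decide)] at h0
  exact h0

theorem eq6 (X : Fin 18 → ℝ) (h : Fl X) : X 6 = X 5 + X 15 := by
  have h0 := h 6
  rw [show (Finset.univ.filter (fun e => tl e = 6)) = {6} by decide,
    show (Finset.univ.filter (fun e => hd e = 6)) = {5, 15} by decide,
    Finset.sum_singleton, Finset.sum_pair (by decide)] at h0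
  exact h0

theorem eq7 (X : Fin 18 → ℝ) (h : Fl X) : X 7 = X 6 + X 16 := by
  have h0 := h 7
  rw [show (Finset.univ.filter (fun e => tl e = 7)) = {7} by decide,
    show (Finset.univ.filter (fun e => hd e = 7)) = {6, 16} by decide,
    Finset.sum_singleton, Finset.sum_pair (by decide)] at h0
  exact h0

theorem eq8 (X : Fin 18 → ℝ) (h : Fl X) : X 8 = X 7 + X 17 := by
  have h0 := h 8
  rw [show (Finset.univ.filter (fun e => tl e = 8)) = {8} by decide,
    show (Finset.univ.filter (fun e => hd e = 8)) = {7, 17} by decide,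
    Finset.sum_singleton, Finset.sum_pair (by decide)] at h0
  exact h0

theorem hub0 (X : Fin 18 → ℝ) (h : Fl X) : X 9 + X 12 + X 15 = 0 := by
  have h0 := h 9
  rw [show (Finset.univ.filter (fun e => tl e = 9)) = {9, 12, 15} by decide,
    show (Finset.univ.filter (fun e => hd e = 9)) = ∅ by decide,
    Finset.sum_empty, Finset.sum_insert (by decide), Finset.sum_pair (by decide)] at h0
  linarith

theorem hub1 (X : Fin 18 → ℝ) (h : Fl X) : X 10 + X 13 + X 16 = 0 := by
  have h0 := h 10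
  rw [show (Finset.univ.filter (fun e => tl e = 10)) = {10, 13, 16} by decide,
    show (Finset.univ.filter (fun e => hd e = 10)) = ∅ by decide,
    Finset.sum_empty, Finset.sum_insert (by decide), Finset.sum_pair (by decide)] at h0
  linarith

theorem hub2 (X : Fin 18 → ℝ) (h : Fl X) : X 11 + X 14 + X 17 = 0 := by
  have h0 := h 11
  rw [show (Finset.univ.filter (fun e => tl e = 11)) = {11, 14, 17} by decide,
    show (Finset.univ.filter (fun e => hd e = 11)) = ∅ by decide,
    Finset.sum_empty, Finset.sum_insert (by decide), Finset.sum_pair (by decide)] at h0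
  linarith

theorem fl_cyc (X : Fin 18 → ℝ) (h : Fl X) : ∀ v < 9, ext X v = ext X ((v + 8) % 9) + ext X (v + 9) := by
  intro v hv
  interval_cases v
  · exact eq0 X h
  · exact eq1 X h
  · exact eq2 X h
  · exact eq3 X h
  · exact eq4 X h
  · exact eq5 X h
  · exact eq6 X h
  · exact eq7 X h
  · exact eq8 X h

theorem fl_hub (X : Fin 18 → ℝ) (h : Fl X) : ∀ j < 3, ext X (9 + j) + ext X (12 + j) + ext X (15 + j) = 0 := by
  intro j hj
  interval_cases j
  · exact hub0 X h
  · exact hub1 X h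
  · exact hub2 X h

theorem goodN (X Y : Fin 18 → ℝ) (h : Good X Y) : GoodN (ext X) (ext Y) where
  cx := fl_cyc X h.1
  cy := fl_cyc Y h.2.1
  hx := fl_hub X h.1
  hy := fl_hub Y h.2.1
  nm := by
    intro e he
    rw [ext_eq X e he, ext_eq Y e he]
    exact h.2.2 ⟨e, he⟩

/-- Code of the root states. -/
theorem root_code (a n : ℕ) (X Y : ℕ → ℝ) (h0 : sc n 0 = a + 2048) (h1 : ∀ e < 18, e ≠ 0 → sc n e = 0)
    (h : InS (a + 2048) (X 0) (Y 0)) : InState n X Y := by
  intro e he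
  by_cases he0 : e = 0
  · rw [he0, h0]; exact h
  · rw [h1 e he he0]; exact Or.inl rfl

theorem code00 : sc 34359750008 0 = 0 + 2048 := by decide +kernel
theorem codes00 : ∀ e < 18, e ≠ 0 → sc 34359750008 e = 0 := by decide +kernel
theorem code08 : sc 34494102856 0 = 8 + 2048 := by decide +kernel
theorem codes08 : ∀ e < 18, e ≠ 0 → sc 34494102856 e = 0 := by decide +kernel
theorem code16 : sc 34628493044 0 = 16 + 2048 := by decide +kernel
theorem codes16 : ∀ e < 18, e ≠ 0 → sc 34628493044 e = 0 := by decide +kernel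
theorem code24 : sc 34762756880 0 = 24 + 2048 := by decide +kernel
theorem codes24 : ∀ e < 18, e ≠ 0 → sc 34762756880 e = 0 := by decide +kernel

/-- The lower bound, from the soundness of the machine. -/
theorem low_of (hev : EvOK) (hll : S_lleaf) (hlf : S_leaf) (hupd : S_upd) (hdig : S_dig) (hcut : S_cut) (hz : S_zone)
    (hw : S_wlog) (htri : S_tri) : ¬ ∃ X Y, Good X Y := by
  refine hw ?_
  rintro ⟨X, Y, hG, hN⟩
  have hGN := goodN X Y hG
  obtain ⟨y0, yx, hm⟩ := hN
  have hx0 : 0 < X 0 := by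
    rcases lt_or_eq_of_le (le_trans y0 yx) with h | h
    · exact h
    · exfalso
      have hy : Y 0 = 0 := le_antisymm (by rw [h]; exact yx) y0
      have h1 := (hG.2.2 0).1
      rw [← h, hy, htri.2.2.2] at h1
      norm_num at h1
  have e0 : ext X 0 = X 0 := ext_eq X 0 (by norm_num)
  have e0' : ext Y 0 = Y 0 := ext_eq Y 0 (by norm_num)
  -- zone hypothesis
  have zone : ∀ Z : ℕ, 0 ≤ X 0 * (py Z : ℝ) - Y 0 * (px Z : ℝ) → 0 ≤ (px Z : ℝ) →
      ∀ e < 9, min |ext X e| |ext Y e| * (px Z : ℝ) ≤ max |ext X e| |ext Y e| * (py Z : ℝ) := by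
    intro Z h1 h2 e he
    rw [ext_eq X e (by omega), ext_eq Y e (by omega)]
    have h3 := hm ⟨e, by omega⟩ he
    have h4 : 0 ≤ max |X ⟨e, by omega⟩| |Y ⟨e, by omega⟩| := le_max_of_le_left (abs_nonneg _)
    have h5 : min |X ⟨e, by omega⟩| |Y ⟨e, by omega⟩| * (px Z : ℝ) * X 0 ≤
        max |X ⟨e, by omega⟩| |Y ⟨e, by omega⟩| * (py Z : ℝ) * X 0 := by
      have h6 := mul_le_mul_of_nonneg_right h3 h2
      have h7 := mul_nonneg h4 h1
      nlinarith
    exact le_of_mul_le_mul_right h5 hx0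
  have R : ∀ Z, (Z = 8 ∨ Z = 16 ∨ Z = 24 ∨ Z = 32) →
      (Z = 32 ∨ ∀ e < 9, min |ext X e| |ext Y e| * (px Z : ℝ) ≤ max |ext X e| |ext Y e| * (py Z : ℝ)) →
      ∀ (fuel : ℕ), fuel ≤ 4000000 → ∀ (cs : List ℕ) (T : ℕ) (n : ℕ), n < 2 ^ 200 →
      run Z fuel cs T [n] = true → ¬ InState n (ext X) (ext Y) :=
    fun Z hZ hzz fuel hf cs T n hn hr =>
      Pool.Agent.H97.PDrun.run_ok hev hll hlf hupd hdig hcut hz tabOK gK_pos (ext X) (ext Y) hGN Z hZ hzz fuel hf
        cs T [n] (fun s hs => by rw [List.mem_singleton.1 hs]; exact Pool.Agent.H97.PDrun.sc_zero hn) hr n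
        (List.mem_singleton.2 rfl)
  have P0 : (px 0 : ℝ) = 1048576 := by rw [dir0.1]; norm_num
  have P0' : (py 0 : ℝ) = 0 := by rw [dir0.2]; norm_num
  have P32 : (px 32 : ℝ) = (py 32 : ℝ) := by rw [dir32.1]
  have P32' : 0 < (px 32 : ℝ) := by exact_mod_cast dir32.2
  have c0 : 0 ≤ (px 0 : ℝ) * Y 0 - (py 0 : ℝ) * X 0 := by rw [P0, P0']; linarith
  have c32 : 0 ≤ X 0 * (py 32 : ℝ) - Y 0 * (px 32 : ℝ) := by rw [← P32]; nlinarith
  have px8 : 0 ≤ (px 8 : ℝ) := by
    have := tabOK.zone 8 (Or.inl rfl)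
    have h1 : (0 : ℤ) ≤ px 8 := le_of_lt (lt_trans this.1 this.2.1)
    exact_mod_cast h1
  have px16 : 0 ≤ (px 16 : ℝ) := by
    have := tabOK.zone 16 (Or.inr (Or.inl rfl))
    have h1 : (0 : ℤ) ≤ px 16 := le_of_lt (lt_trans this.1 this.2.1)
    exact_mod_cast h1
  have px24 : 0 ≤ (px 24 : ℝ) := by
    have := tabOK.zone 24 (Or.inr (Or.inr rfl))
    have h1 : (0 : ℤ) ≤ px 24 := le_of_lt (lt_trans this.1 this.2.1)
    exact_mod_cast h1
  rcases le_total 0 (X 0 * (py 8 : ℝ) - Y 0 * (px 8 : ℝ)) with hz8 | hz8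
  · exact R 8 (Or.inl rfl) (Or.inr (zone 8 hz8 px8)) 2910 (by norm_num) cert00 7 34359750008 (by norm_num) run00
      (root_code 0 _ _ _ code00 codes00 (Or.inr (by rw [e0, e0']; exact ⟨c0, hz8⟩)))
  have g8 : 0 ≤ (px 8 : ℝ) * Y 0 - (py 8 : ℝ) * X 0 := by linarith
  rcases le_total 0 (X 0 * (py 16 : ℝ) - Y 0 * (px 16 : ℝ)) with hz16 | hz16
  · exact R 16 (Or.inr (Or.inl rfl)) (Or.inr (zone 16 hz16 px16)) 36690 (by norm_num) cert08 7 34494102856 (by norm_num) run08
      (root_code 8 _ _ _ code08 codes08 (Or.inr (by rw [e0, e0']; exact ⟨g8, hz16⟩)))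
  have g16 : 0 ≤ (px 16 : ℝ) * Y 0 - (py 16 : ℝ) * X 0 := by linarith
  rcases le_total 0 (X 0 * (py 24 : ℝ) - Y 0 * (px 24 : ℝ)) with hz24 | hz24
  · exact R 24 (Or.inr (Or.inr (Or.inl rfl))) (Or.inr (zone 24 hz24 px24)) 79805 (by norm_num) cert16 7 34628493044 (by norm_num) run16
      (root_code 16 _ _ _ code16 codes16 (Or.inr (by rw [e0, e0']; exact ⟨g16, hz24⟩)))
  have g24 : 0 ≤ (px 24 : ℝ) * Y 0 - (py 24 : ℝ) * X 0 := by linarith
  exact R 32 (Or.inr (Or.inr (Or.inr rfl))) (Or.inl rfl) 91332 (by norm_num) cert24 7 34762756880 (by norm_num) run24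
    (root_code 24 _ _ _ code24 codes24 (Or.inr (by rw [e0, e0']; exact ⟨g24, c32⟩)))

end Pool.Agent.H2.PD
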