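import Pool.Agent.H2.PD.Pg
import Pool.Agent.H2.PD.Low
import Pool.Agent.H2.PD.Up
import Pool.Agent.H213.PDhold
import Pool.Agent.H213.PDwlog
import Pool.Agent.H230.PDnle
import Pool.Agent.H878.PDtri
import Pool.Agent.H878.PDev
import Pool.Agent.H878.PDleaves
import Pool.Agent.H187.PDUpd
import Pool.Agent.H653.PD.CutZone
import Pool.Agent.H407.PDitv
import Pool.Agent.H828.PDdig
import Pool.Agent.H935.PDfin

/-! Assembly: the graph `tl`, `hd` has small flow indices for `p ∈ [1, 2]` and a larger one for `p = 5/2`. -/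

set_option autoImplicit false

open scoped ENNReal

namespace Pool.Agent.H2.PD

theorem low : ¬ ∃ X Y, Good X Y :=
  low_of (ev_ok (Pool.Agent.H878.PD.sec Pool.Agent.H213.PD.hold Pool.Agent.H878.PD.tri) Pool.Agent.H230.PDnle.nle tabOK)
    lleaf_ok leaf_ok Pool.Agent.H187.PDUpd.upd_ok Pool.Agent.H828.PDdig.dig Pool.Agent.H653.PD.cut_ok
    Pool.Agent.H653.PD.zone_ok Pool.Agent.H213.PD.wlog Pool.Agent.H878.PD.tri

theorem upp : S_up := up Pool.Agent.H407.PD.itv Pool.Agent.H407.PD.two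

/-- Flows for `1 ≤ p ≤ 2`. -/
theorem nzf_upp (p : ℝ≥0∞) (h1 : 1 ≤ p) (h2 : p ≤ 2) : NZF tl hd (2316 / 1000) 2 p := by
  rw [nzf_iff h1]
  have htop : p ≠ ⊤ := ne_top_of_le_ne_top (by norm_num) h2
  have hp1 : 1 ≤ p.toReal := by
    have := (ENNReal.toReal_le_toReal (by norm_num) htop).2 h1
    simpa using this
  have hp2 : p.toReal ≤ 2 := by
    have := (ENNReal.toReal_le_toReal htop (by norm_num)).2 h2
    simpa using this
  have hp0 : 0 < p.toReal := by linarith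
  obtain ⟨c, a, b, hc, ha, hb, hab⟩ := upp p.toReal hp1 hp2
  refine ⟨fun e => (![c⁻¹ * a e, c⁻¹ * b e] : Fin 2 → ℝ),
    Pool.Agent.H935.PD.isFlow_of c⁻¹ ha hb, fun e => ?_⟩
  have hn : pnorm p (![c⁻¹ * a e, c⁻¹ * b e] : Fin 2 → ℝ) = c⁻¹ * Np p.toReal (a e) (b e) := by
    rw [Pool.Agent.H935.PD.pnorm_eq p hp0]
    exact Pool.Agent.H935.PD.Np_smul p.toReal hp0 c⁻¹ (a e) (b e) (inv_nonneg.2 hc.le)
  rw [hn]
  obtain ⟨h3, h4⟩ := hab e
  constructor
  · calc (1 : ℝ) = c⁻¹ * c := (inv_mul_cancel₀ hc.ne').symm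
      _ ≤ _ := mul_le_mul_of_nonneg_left h3 (inv_nonneg.2 hc.le)
  · calc c⁻¹ * Np p.toReal (a e) (b e) ≤ c⁻¹ * (1316 / 1000 * c) :=
          mul_le_mul_of_nonneg_left h4 (inv_nonneg.2 hc.le)
      _ = 2316 / 1000 - 1 := by
          field_simp
          ring

theorem one_le_half : (1 : ℝ≥0∞) ≤ 5 / 2 := by
  rw [ENNReal.le_div_iff_mul_le (Or.inl (by norm_num)) (Or.inl (by norm_num))]
  norm_num

/-- No flow for `p = 5/2` with a smaller ratio. -/
theorem nzf_low (r : ℝ) (h : NZF tl hd r 2 (5 / 2)) : 23161 / 10000 < r := by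
  rw [nzf_iff one_le_half] at h
  obtain ⟨f, hf, hn⟩ := h
  by_contra hcon
  push Not at hcon
  apply low
  refine ⟨fun e => f e 0, fun e => f e 1, ?_, ?_, ?_⟩
  · intro v
    have := congrFun (hf v) 0
    rwa [Finset.sum_apply, Finset.sum_apply] at this
  · intro v
    have := congrFun (hf v) 1
    rwa [Finset.sum_apply, Finset.sum_apply] at this
  · intro e
    have h1 := hn e
    rw [Pool.Agent.H935.PD.pnorm_eq _ (by rw [Pool.Agent.H935.PD.toReal_half]; norm_num),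
      Pool.Agent.H935.PD.toReal_half, ← Pool.Agent.H935.PD.N_eq] at h1
    exact ⟨h1.1, by linarith [h1.2]⟩

theorem nzf_some : ∃ r, 2 ≤ r ∧ NZF tl hd r 2 (5 / 2) := by
  obtain ⟨r, hr, h⟩ := Pool.Agent.H935.PD.nonempty upp
  exact ⟨r, hr, (nzf_iff one_le_half).2 h⟩

theorem phi_upp (p : ℝ≥0∞) (h1 : 1 ≤ p) (h2 : p ≤ 2) : phi tl hd 2 p ≤ 2316 / 1000 :=
  csInf_le ⟨2, fun _ hr => hr.1⟩ ⟨by norm_num, nzf_upp p h1 h2⟩

theorem phi_low : 23161 / 10000 ≤ phi tl hd 2 (5 / 2) :=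
  le_csInf nzf_some fun r hr => (nzf_low r hr.2).le

end Pool.Agent.H2.PD
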