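import Mathlib
import Pool.Agent.H2.PD.Defs

/-!
Flows with respect to a freely chosen orientation: the flow index of the problem page.
-/

set_option autoImplicit false

open scoped ENNReal

namespace Pool.Agent.H2.PD

/-- The edge `e` of a multigraph joins `a e` and `b e`. In the orientation `o` it is directed from `a e` to `b e` if
`o e = false`, and from `b e` to `a e` if `o e = true`. This is its initial vertex. -/
def src {V E : Type} (a b : E → V) (o : E → Bool) (e : E) : V := if o e = true then b e else a e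

/-- The terminal vertex of the edge `e` in the orientation `o`. -/
def tgt {V E : Type} (a b : E → V) (o : E → Bool) (e : E) : V := if o e = true then a e else b e

/-- An `(r, d, p)`-NZF of the multigraph: an orientation `o` and a map `f` from the edges to `ℝ^d` with Kirchhoff's law
(`IsFlow`) and `1 ≤ ‖f e‖_p ≤ r - 1` for each edge `e`. -/
def NZF {V E : Type} [Fintype E] [DecidableEq V] (a b : E → V) (r : ℝ) (d : ℕ) (p : ℝ≥0∞) : Prop :=
  ∃ (o : E → Bool) (f : E → Fin d → ℝ), IsFlow (src a b o) (tgt a b o) f ∧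
    ∀ e, f e ≠ 0 ∧ 1 ≤ pnorm p (f e) ∧ pnorm p (f e) ≤ r - 1

/-- The flow index `φ_{d,p}`: the infimum of all real `r ≥ 2` for which there is an `(r, d, p)`-NZF. -/
noncomputable def phi {V E : Type} [Fintype E] [DecidableEq V] (a b : E → V) (d : ℕ) (p : ℝ≥0∞) : ℝ :=
  sInf {r : ℝ | 2 ≤ r ∧ NZF a b r d p}

section

variable {V E : Type} [Fintype E] [DecidableEq V] {a b : E → V} {d : ℕ}

theorem pnorm_neg (p : ℝ≥0∞) (hp : 1 ≤ p) (x : Fin d → ℝ) : pnorm p (-x) = pnorm p x := by
  have : Fact (1 ≤ p) := ⟨hp⟩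
  unfold pnorm
  rw [WithLp.toLp_neg, norm_neg]

theorem pnorm_zero (p : ℝ≥0∞) (hp : 1 ≤ p) : pnorm p (0 : Fin d → ℝ) = 0 := by
  have : Fact (1 ≤ p) := ⟨hp⟩
  unfold pnorm
  rw [WithLp.toLp_zero, norm_zero]

/-- Kirchhoff's law with respect to the orientation `o`. -/
theorem isFlow_iff (o : E → Bool) (f : E → Fin d → ℝ) :
    IsFlow (src a b o) (tgt a b o) f ↔ IsFlow a b (fun e => if o e = true then -f e else f e) := by
  unfold IsFlow
  refine forall_congr' fun v => ?_
  rw [← sub_eq_zero, ← sub_eq_zero (b := ∑ e with b e = v, _)]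
  have h : ∑ e with src a b o e = v, f e - ∑ e with tgt a b o e = v, f e =
      ∑ e with a e = v, (if o e = true then -f e else f e) -
        ∑ e with b e = v, (if o e = true then -f e else f e) := by
    rw [Finset.sum_filter, Finset.sum_filter, Finset.sum_filter, Finset.sum_filter,
      ← Finset.sum_sub_distrib, ← Finset.sum_sub_distrib]
    refine Finset.sum_congr rfl fun e _ => ?_
    unfold src tgt
    by_cases ho : o e = true
    · simp only [ho, if_true]
      by_cases h1 : a e = v <;> by_cases h2 : b e = v <;> simp [h1, h2]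
    · simp only [ho]
      by_cases h1 : a e = v <;> by_cases h2 : b e = v <;> simp [h1, h2]
  rw [h]

theorem nzf_iff {r : ℝ} {p : ℝ≥0∞} (hp : 1 ≤ p) : NZF a b r d p ↔ HasNZF a b d p r := by
  constructor
  · rintro ⟨o, f, hf, hn⟩
    refine ⟨_, (isFlow_iff o f).1 hf, fun e => ?_⟩
    by_cases ho : o e = true
    · simp only [ho, if_true]
      rw [pnorm_neg p hp]
      exact (hn e).2
    · simp only [ho]
      exact (hn e).2
  · rintro ⟨f, hf, hn⟩
    refine ⟨fun _ => false, f, hf, fun e => ⟨fun h0 => ?_, hn e⟩⟩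
    have h1 := (hn e).1
    rw [h0, pnorm_zero p hp] at h1
    norm_num at h1

theorem phi_eq {p : ℝ≥0∞} (hp : 1 ≤ p) : phi a b d p = flowIndex a b d p := by
  unfold phi flowIndex
  congr 1
  ext r
  simp only [Set.mem_ofPred_eq, nzf_iff hp]

end

end Pool.Agent.H2.PD
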