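import Mathlib
import Pool.Agent.H2.PD.Defs
import Pool.Agent.H2.PD.Stm

open scoped ENNReal

namespace Pool.Agent.H2.PD

/-- Upper bound: for each `p ∈ [1, 2]` an integer flow (scaled by `c`). -/
def S_up : Prop := ∀ p : ℝ, 1 ≤ p → p ≤ 2 → ∃ (c : ℝ) (a b : Fin 18 → ℤ), 0 < c ∧
  (∀ v : Fin 12, ∑ e with tl e = v, a e = ∑ e with hd e = v, a e) ∧
  (∀ v : Fin 12, ∑ e with tl e = v, b e = ∑ e with hd e = v, b e) ∧
  ∀ e, c ≤ Np p (a e) (b e) ∧ Np p (a e) (b e) ≤ 1316 / 1000 * c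

/-- Final assembly. Proof: `tl e ≠ hd e` by `decide`. Bridgeless: for all `Z` the number of edges with exactly one end in `Z`
is not `1`; reduce to `Finset (Fin 12)` and `decide` (4096 cases; `decide +kernel`) or argue by three cycles.
For `p ∈ [1, 2]`: `S_up` with `f e = c⁻¹ • ![a e, b e]` gives `flowIndex ≤ 1 + 1.316` (`csInf_le`, bounded below by `2`).
For `p = 5/2`: each `r` of the set satisfies `r > 1 + 1.3161` by the hypothesis (`pnorm (5/2) ![x, y] = N x y`), and the set is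
not empty (take `S_up` for `p = 2`, or any integer flow without zeros, and scale it), so
`flowIndex ≥ 1 + 1.3161` (`le_csInf`). -/
def S_fin : Prop := (¬ ∃ X Y, Good X Y) → S_up →
  (∀ e, tl e ≠ hd e) ∧ Bridgeless tl hd ∧
    ∀ p : ℝ≥0∞, 1 ≤ p → p ≤ 2 → flowIndex tl hd 2 p < flowIndex tl hd 2 (5 / 2)

end Pool.Agent.H2.PD
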